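import Pool.Agent.MP_fe71fa_lc.H18.Iface

set_option autoImplicit false

/-! The canonical Hales-Jewett theorem. -/

namespace Pool.Agent.MP_fe71fa_lc.H14

open Function

/-- parameter words with insensitivity at every variable -/
theorem insens (A D : Type) [Finite A] [Finite D] (σ : A → D) (m : ℕ) :
    ∀ (C : Type) [Finite C], ∃ (ι : Type) (_ : Finite ι), ∀ χ : (ι → D) → C,
      ∃ f : ι → A ⊕ ℕ, (∀ j < m, ∃ i, f i = Sum.inr j) ∧ (∀ i k, f i = Sum.inr k → k < m) ∧
        ∀ (p : ℕ → D) (j : ℕ), j < m → ∀ d d' : D,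
          ((∃ a, σ a = d) ∨ ∃ i < j, p i = d) → ((∃ a, σ a = d') ∨ ∃ i < j, p i = d') →
          χ (fun i => Sum.elim σ (update p j d) (f i)) =
            χ (fun i => Sum.elim σ (update p j d') (f i)) := by
  induction m with
  | zero =>
    intro C _
    exact ⟨Empty, inferInstance, fun χ => ⟨fun i => i.elim, by simp, fun i => i.elim, by simp⟩⟩
  | succ m ih =>
    intro C _
    obtain ⟨ι1, hι1, h1⟩ := ih (D → C)
    obtain ⟨ι2, hι2, h2⟩ :=
      Combinatorics.Line.exists_mono_in_high_dimension (A ⊕ ι1) ((ι1 → D) → C)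
    refine ⟨ι1 ⊕ ι2, inferInstance, fun χ => ?_⟩
    obtain ⟨L, c, hL⟩ := h2 fun w s => χ (Sum.elim s fun i => Sum.elim σ s (w i))
    set ev : (ι1 → D) → D → (ι1 ⊕ ι2 → D) := fun s d =>
      Sum.elim s fun i => (L.idxFun i).elim d (Sum.elim σ s) with hev
    have hmono : ∀ s u, χ (ev s (Sum.elim σ s u)) = c s := by
      intro s u
      rw [← congrFun (hL u) s]
      congr 1
      funext i
      rcases i with i | i
      · rfl
      · simp only [hev, Sum.elim_inr, Combinatorics.Line.coe_apply]
        cases L.idxFun i <;> rfl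
    obtain ⟨f1, ho, hb, hi⟩ := h1 fun s d => χ (ev s d)
    set f : ι1 ⊕ ι2 → A ⊕ ℕ :=
      Sum.elim f1 fun i => (L.idxFun i).elim (Sum.inr m) (Sum.elim Sum.inl f1) with hf
    have hfe : ∀ p : ℕ → D, (fun i => Sum.elim σ p (f i)) =
        ev (fun i => Sum.elim σ p (f1 i)) (p m) := by
      intro p
      funext i
      rcases i with i | i
      · rfl
      · simp only [hev, hf, Sum.elim_inr]
        rcases L.idxFun i with _ | a | k <;> rfl
    refine ⟨f, ?_, ?_, ?_⟩
    · intro j hj
      rcases Nat.lt_succ_iff_lt_or_eq.mp hj with hj | rfl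
      · obtain ⟨i, hi⟩ := ho j hj
        exact ⟨Sum.inl i, hi⟩
      · obtain ⟨i, hi⟩ := L.proper
        exact ⟨Sum.inr i, by simp [hf, hi]⟩
    · rintro (i | i) k hk
      · exact (hb i k hk).trans (Nat.lt_succ_self m)
      · simp only [hf, Sum.elim_inr] at hk
        generalize L.idxFun i = o at hk
        rcases o with _ | a | k'
        · simp only [Option.elim, Sum.inr.injEq] at hk
          omega
        · simp at hk
        · exact (hb k' k hk).trans (Nat.lt_succ_self m)
    · intro p j hj d d' hd hd'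
      rw [hfe, hfe]
      rcases Nat.lt_succ_iff_lt_or_eq.mp hj with hj | rfl
      · rw [update_of_ne hj.ne', update_of_ne hj.ne']
        exact congrFun (hi p j hj d d' hd hd') (p m)
      · have hs : ∀ e : D, (fun i => Sum.elim σ (update p j e) (f1 i)) =
            fun i => Sum.elim σ p (f1 i) := by
          intro e
          funext i
          rcases hq : f1 i with a | k
          · rfl
          · exact update_of_ne (hb i k hq).ne _ _
        have hu : ∀ e : D, ((∃ a, σ a = e) ∨ ∃ i < j, p i = e) →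
            χ (ev (fun i => Sum.elim σ p (f1 i)) e) = c fun i => Sum.elim σ p (f1 i) := by
          rintro e (⟨a, rfl⟩ | ⟨k, hk, rfl⟩)
          · exact hmono _ (Sum.inl a)
          · obtain ⟨i, hi⟩ := ho k hk
            have := hmono (fun i => Sum.elim σ p (f1 i)) (Sum.inr i)
            simpa [hi] using this
        rw [hs, hs, update_self, update_self, hu d hd, hu d' hd']

section
variable {A : Type} {T : (ℕ → A) → (ℕ → A) → Prop} {n : ℕ}

/-- the first `k` letters from `y`, the others from `x` -/
def hyb (x y : ℕ → A) (k : ℕ) : ℕ → A := fun i => if i < k then y i else x i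

lemma hyb_zero (x y : ℕ → A) : hyb x y 0 = x := by
  funext i; simp [hyb]

lemma hyb_self (x y : ℕ → A) (k : ℕ) : update (hyb x y k) k (x k) = hyb x y k := by
  funext i
  by_cases h : i = k
  · subst h; simp [hyb]
  · simp [update_of_ne h]

lemma hyb_succ (x y : ℕ → A) (k : ℕ) : update (hyb x y k) k (y k) = hyb x y (k + 1) := by
  funext i
  by_cases h : i = k
  · subst h; simp [hyb]
  · have : i < k + 1 ↔ i < k := by omega
    simp [update_of_ne h, hyb, this]

/-- the properties of the relation induced on the parameter word -/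
structure Good (T : (ℕ → A) → (ℕ → A) → Prop) (n : ℕ) : Prop where
  eqv : Equivalence T
  loc : ∀ x y, (∀ i < n, x i = y i) → T x y
  ins : ∀ (x y : ℕ → A) (j : ℕ), j < n → ∀ a b a' b' : A,
    (a = b ∨ ∃ i < j, x i = a ∧ y i = b) → (a' = b' ∨ ∃ i < j, x i = a' ∧ y i = b') →
    T (update x j a) (update y j b) → T (update x j a') (update y j b')

lemma Good.diag (h : Good T n) {x y x' y' : ℕ → A}
    (hxy : ∀ i, (x i = x' i ∧ y i = y' i) ∨ (x i = y i ∧ x' i = y' i)) (hT : T x y) :
    T x' y' := by
  have key : ∀ k ≤ n, T (hyb x x' k) (hyb y y' k) := by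
    intro k hk
    induction k with
    | zero => simpa [hyb_zero] using hT
    | succ k ih =>
      have ih := ih (by omega)
      rw [← hyb_succ, ← hyb_succ]
      rw [← hyb_self x x', ← hyb_self y y'] at ih
      rcases hxy k with ⟨h1, h2⟩ | ⟨h1, h2⟩
      · rwa [← h1, ← h2]
      · exact h.ins _ _ k (by omega) _ _ _ _ (Or.inl h1) (Or.inl h2) ih
  have e1 : T x' (hyb x x' n) := h.loc _ _ fun i hi => by simp [hyb, hi]
  have e2 : T (hyb y y' n) y' := h.loc _ _ fun i hi => by simp [hyb, hi]
  exact h.eqv.trans e1 (h.eqv.trans (key n le_rfl) e2)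

/-- the relation on letters at position `j` -/
def rel (T : (ℕ → A) → (ℕ → A) → Prop) (a0 : A) (j : ℕ) (a b : A) : Prop :=
  T (update (fun _ => a0) j a) (update (fun _ => a0) j b)

lemma Good.move (h : Good T n) {z z' : ℕ → A} {j : ℕ} {a b : A}
    (hT : T (update z j a) (update z j b)) : T (update z' j a) (update z' j b) := by
  refine h.diag (fun i => ?_) hT
  by_cases hi : i = j
  · subst hi; simp
  · simp [update_of_ne hi]

lemma Good.of_rel (h : Good T n) (a0 : A) {x y : ℕ → A}
    (hxy : ∀ j < n, rel T a0 j (x j) (y j)) : T x y := by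
  have key : ∀ k ≤ n, T x (hyb x y k) := by
    intro k hk
    induction k with
    | zero => rw [hyb_zero]; exact h.eqv.refl x
    | succ k ih =>
      refine h.eqv.trans (ih (by omega)) ?_
      have := h.move (z' := hyb x y k) (hxy k (by omega))
      rwa [hyb_self, hyb_succ] at this
  exact h.eqv.trans (key n le_rfl) (h.loc _ _ fun i hi => by simp [hyb, hi])

lemma Good.to_rel (h : Good T n) (a0 : A) {x y : ℕ → A} (hT : T x y) {j t : ℕ} (hjt : j < t)
    (ht : t < n) (hxy : x t = y t) : rel T a0 t (x j) (y j) := by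
  have h0 : T (update x t (x t)) (update y t (y t)) := by simpa using hT
  have h1 := h.ins x y t ht _ _ (x j) (y j) (Or.inl hxy) (Or.inr ⟨j, hjt, rfl, rfl⟩) h0
  have h2 := h.ins x y t ht _ _ (x j) (x j) (Or.inl hxy) (Or.inl rfl) h0
  exact h.move (h.eqv.trans (h.eqv.symm h2) h1)

end

theorem canon : H18.CanonStmt := by
  classical
  intro A _ m
  rcases isEmpty_or_nonempty A with hA | ⟨⟨a0⟩⟩
  · refine ⟨m, fun Θ hΘ => ⟨Sum.inr, fun _ _ => True, ⟨by simp, by simp, by simp⟩,
      fun j => ⟨j, rfl⟩, fun x y => ?_⟩⟩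
    have : x = y := funext fun j => hA.elim (x j)
    subst this
    simpa using hΘ.refl _
  have : Fintype (A → A → Prop) := Fintype.ofFinite _
  set n := Fintype.card (A → A → Prop) * m + 1 with hn
  obtain ⟨ι, hι, h⟩ := insens A (A × A) (fun a => (a, a)) n Prop
  obtain ⟨N, ⟨e⟩⟩ := Finite.exists_equiv_fin ι
  refine ⟨N, fun Θ hΘ => ?_⟩
  obtain ⟨f, ho, hb, hi⟩ := h fun p => Θ (fun i => (p (e.symm i)).1) fun i => (p (e.symm i)).2
  set T : (ℕ → A) → (ℕ → A) → Prop := fun x y =>
    Θ (fun i => Sum.elim id x (f (e.symm i))) fun i => Sum.elim id y (f (e.symm i)) with hT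
  have hG : Good T n := by
    refine ⟨⟨fun x => hΘ.refl _, fun h => hΘ.symm h, fun h h' => hΘ.trans h h'⟩, ?_, ?_⟩
    · intro x y hxy
      have : (fun i => Sum.elim id x (f (e.symm i))) = fun i => Sum.elim id y (f (e.symm i)) := by
        funext i
        rcases hq : f (e.symm i) with a | k
        · rfl
        · exact hxy k (hb _ k hq)
      simp only [hT, this]
      exact hΘ.refl _
    · intro x y j hj a b a' b' hab hab' h0
      have e1 : ∀ (a b : A) (u : A ⊕ ℕ),
          (Sum.elim (fun a => (a, a)) (update (fun i => (x i, y i)) j (a, b)) u).1 =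
            Sum.elim id (update x j a) u := by
        rintro a b (u | u)
        · rfl
        · by_cases hu : u = j
          · subst hu; simp
          · simp [update_of_ne hu]
      have e2 : ∀ (a b : A) (u : A ⊕ ℕ),
          (Sum.elim (fun a => (a, a)) (update (fun i => (x i, y i)) j (a, b)) u).2 =
            Sum.elim id (update y j b) u := by
        rintro a b (u | u)
        · rfl
        · by_cases hu : u = j
          · subst hu; simp
          · simp [update_of_ne hu]
      have cv : ∀ a b : A, (a = b ∨ ∃ i < j, x i = a ∧ y i = b) →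
          (∃ c : A, (c, c) = (a, b)) ∨ ∃ i < j, (x i, y i) = (a, b) := by
        rintro a b (rfl | ⟨i, hi, rfl, rfl⟩)
        · exact Or.inl ⟨a, rfl⟩
        · exact Or.inr ⟨i, hi, rfl⟩
      have := hi (fun i => (x i, y i)) j hj (a, b) (a', b') (cv a b hab) (cv a' b' hab')
      simp only [e1, e2] at this
      exact this.mp h0
  obtain ⟨ρ, -, hρ⟩ := Finset.exists_lt_card_fiber_of_mul_lt_card_of_maps_to
    (s := Finset.range n) (t := (Finset.univ : Finset (A → A → Prop))) (f := rel T a0) (n := m)
    (fun _ _ => Finset.mem_univ _) (by simp [hn])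
  obtain ⟨S, hS, hc⟩ := Finset.exists_subset_card_eq (Nat.succ_le_of_lt hρ)
  set g := S.orderEmbOfFin hc with hg
  have hgS : ∀ k, g k < n ∧ rel T a0 (g k) = ρ := by
    intro k
    have := hS (S.orderEmbOfFin_mem hc k)
    simpa using this
  have hinj : Injective fun j : Fin m => g j.castSucc :=
    g.injective.comp (Fin.castSucc_injective m)
  set w : ℕ → A ⊕ Fin m := extend (fun j : Fin m => g j.castSucc) Sum.inr fun _ => Sum.inl a0
    with hw
  have hw1 : ∀ j : Fin m, w (g j.castSucc) = Sum.inr j := fun j => hinj.extend_apply _ _ j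
  have hw2 : ∀ k, (¬ ∃ j : Fin m, g j.castSucc = k) → w k = Sum.inl a0 :=
    fun k hk => extend_apply' _ _ _ hk
  have hρe : ∀ k, Equivalence (rel T a0 k) := fun k =>
    ⟨fun a => hG.eqv.refl _, fun h => hG.eqv.symm h, fun h h' => hG.eqv.trans h h'⟩
  refine ⟨fun i => Sum.elim Sum.inl w (f (e.symm i)), ρ, (hgS 0).2 ▸ hρe _, ?_, ?_⟩
  · intro j
    obtain ⟨i, hi⟩ := ho _ (hgS j.castSucc).1
    exact ⟨e i, by simp [hi, hw1]⟩
  · intro x y
    have e1 : ∀ x : Fin m → A, (fun i => Sum.elim id x (Sum.elim Sum.inl w (f (e.symm i)))) =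
        fun i => Sum.elim id (fun k => Sum.elim id x (w k)) (f (e.symm i)) := by
      intro x
      funext i
      rcases f (e.symm i) with a | k <;> rfl
    rw [e1, e1]
    change T _ _ ↔ _
    constructor
    · intro h0 j
      have hl : w (g (Fin.last m)) = Sum.inl a0 := by
        refine hw2 _ ?_
        rintro ⟨j, hj⟩
        exact (Fin.castSucc_lt_last j).ne (g.injective hj)
      have := hG.to_rel a0 h0 (g.strictMono (Fin.castSucc_lt_last j)) (hgS _).1 (by simp [hl])
      rw [(hgS _).2] at this
      simpa [hw1] using this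
    · intro h0
      refine hG.of_rel a0 fun k _ => ?_
      by_cases hk : ∃ j : Fin m, g j.castSucc = k
      · obtain ⟨j, rfl⟩ := hk
        rw [(hgS _).2]
        simpa [hw1] using h0 j
      · simp only [hw2 k hk, Sum.elim_inl]
        exact (hρe k).refl _

end Pool.Agent.MP_fe71fa_lc.H14
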